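import Mathlib

set_option autoImplicit false

namespace Pool.Agent.Work.MP_2fa0cb_nt

open OnePoint

/-- The self-map of `ℂ ∪ {∞}` given by a rational function. -/
noncomputable def sphereMap (h : RatFunc ℂ) (x : OnePoint ℂ) : OnePoint ℂ :=
  match x with
  | OnePoint.infty => if h.denom.natDegree < h.num.natDegree then (∞ : OnePoint ℂ)
            else ((h.num.coeff h.denom.natDegree / h.denom.leadingCoeff : ℂ) : OnePoint ℂ)
  | OnePoint.some z => if h.denom.eval z = 0 then (∞ : OnePoint ℂ)
            else ((h.num.eval z / h.denom.eval z : ℂ) : OnePoint ℂ)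

/-- The rank-two recurrence set. -/
def recSet2 (f g c : RatFunc ℂ) : Set (ℕ × ℕ) :=
  {p | ∃ x : OnePoint ℂ,
    sphereMap c x = (sphereMap f)^[p.1] x ∧ sphereMap c x = (sphereMap g)^[p.2] x}

end Pool.Agent.Work.MP_2fa0cb_nt
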