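import Mathlib
import Pool.Agent.Work.MP_2fa0cb_nt.Defs

set_option autoImplicit false

namespace Pool.Agent.Work.MP_2fa0cb_nt

open OnePoint

lemma num_pow (a : ℕ) : (RatFunc.X ^ a : RatFunc ℂ).num = Polynomial.X ^ a := by
  rw [← RatFunc.algebraMap_X, ← map_pow, RatFunc.num_algebraMap]

lemma denom_pow (a : ℕ) : (RatFunc.X ^ a : RatFunc ℂ).denom = 1 := by
  rw [← RatFunc.algebraMap_X, ← map_pow, RatFunc.denom_algebraMap]

lemma sphereMap_pow_coe (a : ℕ) (z : ℂ) :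
    sphereMap (RatFunc.X ^ a) (z : OnePoint ℂ) = ((z ^ a : ℂ) : OnePoint ℂ) := by
  change (if (RatFunc.X ^ a : RatFunc ℂ).denom.eval z = 0 then (∞ : OnePoint ℂ)
            else (((RatFunc.X ^ a : RatFunc ℂ).num.eval z / (RatFunc.X ^ a : RatFunc ℂ).denom.eval z : ℂ) : OnePoint ℂ)) = _
  rw [num_pow, denom_pow]
  simp

lemma sphereMap_pow_infty (a : ℕ) (ha : 1 ≤ a) :
    sphereMap (RatFunc.X ^ a) ∞ = ∞ := by
  change (if (RatFunc.X ^ a : RatFunc ℂ).denom.natDegree < (RatFunc.X ^ a : RatFunc ℂ).num.natDegree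
            then (∞ : OnePoint ℂ)
            else (((RatFunc.X ^ a : RatFunc ℂ).num.coeff (RatFunc.X ^ a : RatFunc ℂ).denom.natDegree /
              (RatFunc.X ^ a : RatFunc ℂ).denom.leadingCoeff : ℂ) : OnePoint ℂ)) = _
  rw [num_pow, denom_pow]
  rw [if_pos]
  simp
  omega

lemma iter_pow_coe (a : ℕ) (m : ℕ) (z : ℂ) :
    (sphereMap (RatFunc.X ^ a))^[m] (z : OnePoint ℂ) = ((z ^ (a ^ m) : ℂ) : OnePoint ℂ) := by
  induction m with
  | zero => simp
  | succ m ih =>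
    rw [Function.iterate_succ_apply', ih, sphereMap_pow_coe, ← pow_mul, pow_succ]

lemma iter_pow_infty (a : ℕ) (ha : 1 ≤ a) (m : ℕ) :
    (sphereMap (RatFunc.X ^ a))^[m] ∞ = ∞ := by
  induction m with
  | zero => simp
  | succ m ih =>
    rw [Function.iterate_succ_apply', ih, sphereMap_pow_infty a ha]

lemma numc (ζ : ℂ) (hζ : ζ ≠ 0) (k : ℕ) :
    (RatFunc.C ζ / RatFunc.X ^ k : RatFunc ℂ).num = Polynomial.C ζ ∧
    (RatFunc.C ζ / RatFunc.X ^ k : RatFunc ℂ).denom = Polynomial.X ^ k := by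
  have h1 : (RatFunc.C ζ / RatFunc.X ^ k : RatFunc ℂ) =
    algebraMap (Polynomial ℂ) (RatFunc ℂ) (Polynomial.C ζ) / algebraMap (Polynomial ℂ) (RatFunc ℂ) (Polynomial.X ^ k) := by
    rw [map_pow, RatFunc.algebraMap_X, RatFunc.algebraMap_C]
  have hu : IsUnit (Polynomial.C ζ) := Polynomial.isUnit_C.mpr (isUnit_iff_ne_zero.mpr hζ)
  have hg : gcd (Polynomial.C ζ) (Polynomial.X ^ k : Polynomial ℂ) = 1 := by
    have := gcd_dvd_left (Polynomial.C ζ) (Polynomial.X ^ k : Polynomial ℂ)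
    have h2 : IsUnit (gcd (Polynomial.C ζ) (Polynomial.X ^ k : Polynomial ℂ)) := isUnit_of_dvd_unit this hu
    rw [← normalize_gcd]
    exact normalize_eq_one.mpr h2
  rw [h1, RatFunc.num_div, RatFunc.denom_div _ (pow_ne_zero _ Polynomial.X_ne_zero), hg]
  simp



lemma criterion {q : ℕ} (hq : q.Prime) {ζ : ℂ} (hζ : IsPrimitiveRoot ζ q) {A B w : ℕ}
    (hA : 0 < A) (h1 : q ^ w ∣ A) (h2 : ¬ q ^ (w + 1) ∣ A) :
    (∃ z : ℂ, z ^ A = ζ ∧ z ^ B = ζ) ↔ A ≡ B [MOD q ^ (w + 1)] := by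
  have hg0 : 0 < Nat.gcd A B := Nat.gcd_pos_of_pos_left _ hA
  obtain ⟨a, b, hab, ha, hb⟩ := Nat.exists_coprime A B
  set g := Nat.gcd A B with hg
  have hord : ∀ i j : ℕ, ζ ^ i = ζ ^ j ↔ i ≡ j [MOD q] := by
    intro i j
    rw [hζ.eq_orderOf]
    exact (hζ.isOfFinOrder hq.ne_zero).pow_eq_pow_iff_modEq
  constructor
  · rintro ⟨z, hzA, hzB⟩
    have hya : (z ^ g) ^ a = ζ := by rw [← pow_mul, mul_comm, ← ha, hzA]
    have hyb : (z ^ g) ^ b = ζ := by rw [← pow_mul, mul_comm, ← hb, hzB]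
    have hyq : (z ^ g) ^ q = 1 := by
      have e1 : (z ^ g) ^ (a * q) = 1 := by rw [pow_mul, hya, hζ.pow_eq_one]
      have e2 : (z ^ g) ^ (b * q) = 1 := by rw [pow_mul, hyb, hζ.pow_eq_one]
      have e3 := Nat.dvd_gcd (orderOf_dvd_of_pow_eq_one e1) (orderOf_dvd_of_pow_eq_one e2)
      rw [Nat.gcd_mul_right, hab.gcd_eq_one, one_mul] at e3
      exact orderOf_dvd_iff_pow_eq_one.mp e3
    have : NeZero q := ⟨hq.ne_zero⟩
    obtain ⟨i, hiq, hi⟩ := hζ.eq_pow_of_pow_eq_one hyq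
    have hia : i * a ≡ 1 [MOD q] := by
      rw [← hord, pow_mul, hi, hya, pow_one]
    have hib : i * b ≡ 1 [MOD q] := by
      rw [← hord, pow_mul, hi, hyb, pow_one]
    have hcop : Nat.Coprime q i := by
      rw [Nat.coprime_comm]
      have h3 : Nat.Coprime (i * a) q := by
        have := hia.gcd_eq
        rw [Nat.gcd_one_left] at this
        exact this
      exact Nat.Coprime.coprime_mul_right h3
    have hcopa : Nat.Coprime q a := by
      rw [Nat.coprime_comm]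
      have h3 : Nat.Coprime (i * a) q := by
        have := hia.gcd_eq
        rw [Nat.gcd_one_left] at this
        exact this
      exact Nat.Coprime.coprime_mul_left h3
    have hmod : a ≡ b [MOD q] :=
      Nat.ModEq.cancel_left_of_coprime hcop (hia.trans hib.symm)
    have hwg : q ^ w ∣ g := by
      rw [ha, mul_comm] at h1
      exact (Nat.Coprime.pow_left w hcopa).dvd_of_dvd_mul_right h1
    have h4 : a * g ≡ b * g [MOD q * g] := Nat.ModEq.mul_right' g hmod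
    rw [← ha, ← hb] at h4
    refine h4.of_dvd ?_
    rw [pow_succ, mul_comm]
    exact Nat.mul_dvd_mul_left q hwg
  · intro h
    have hwB : q ^ w ∣ B := by
      have h5 : A ≡ B [MOD q ^ w] := h.of_dvd (pow_dvd_pow q (Nat.le_succ w))
      exact (h5.dvd_iff dvd_rfl).mp h1
    have hwg : q ^ w ∣ g := Nat.dvd_gcd h1 hwB
    obtain ⟨g', hg'⟩ := hwg
    have hqa : ¬ q ∣ a * g' := by
      intro hd
      apply h2
      rw [ha, hg', pow_succ]
      have : a * (q ^ w * g') = q ^ w * (a * g') := by ring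
      rw [this]
      exact Nat.mul_dvd_mul_left _ hd
    have hqa1 : ¬ q ∣ a := fun hd => hqa (hd.mul_right _)
    have hqg1 : ¬ q ∣ g' := fun hd => hqa (hd.mul_left _)
    have hmod : a ≡ b [MOD q] := by
      have h6 : q ^ w * (g' * a) ≡ q ^ w * (g' * b) [MOD q ^ w * q] := by
        have e1 : A = q ^ w * (g' * a) := by rw [ha, hg']; ring
        have e2 : B = q ^ w * (g' * b) := by rw [hb, hg']; ring
        rw [← e1, ← e2, ← pow_succ]
        exact h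
      have h7 := Nat.ModEq.mul_left_cancel' (pow_ne_zero w hq.ne_zero) h6
      exact Nat.ModEq.cancel_left_of_coprime ((Nat.Prime.coprime_iff_not_dvd hq).mpr hqg1) h7
    obtain ⟨u, _, hu⟩ := Nat.exists_mul_mod_eq_one_of_coprime
      ((Nat.Prime.coprime_iff_not_dvd hq).mpr hqa1).symm hq.one_lt
    obtain ⟨z, hz⟩ := IsAlgClosed.exists_pow_nat_eq (ζ ^ u) hg0
    have hu1 : a * u ≡ 1 [MOD q] := by
      rw [Nat.ModEq, hu, Nat.mod_eq_of_lt hq.one_lt]
    refine ⟨z, ?_, ?_⟩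
    · rw [ha, mul_comm, pow_mul, hz, ← pow_mul, mul_comm]
      conv_rhs => rw [← pow_one ζ]
      rw [hord]
      exact hu1
    · rw [hb, mul_comm, pow_mul, hz, ← pow_mul, mul_comm]
      conv_rhs => rw [← pow_one ζ]
      rw [hord]
      exact (Nat.ModEq.mul_right u hmod.symm).trans hu1

lemma fiber_lin {s : Set (ℕ × ℕ)} (hs : IsLinearSet s) :
    ∃ P > 0, (∀ m n, (m, n) ∈ s → (m, n + P) ∈ s) ∨ ∀ m, ∃ N, ∀ n ≥ N, (m, n) ∉ s := by
  obtain ⟨a, t, ht, rfl⟩ := hs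
  by_cases h : ∃ b > 0, ((0 : ℕ), b) ∈ t
  · obtain ⟨b, hb, hbt⟩ := h
    refine ⟨b, hb, Or.inl ?_⟩
    intro m n hmn
    rw [Set.mem_vadd_set] at hmn ⊢
    obtain ⟨y, hy, hya⟩ := hmn
    refine ⟨y + (0, b), ?_, ?_⟩
    · exact add_mem hy (AddSubmonoid.subset_closure hbt)
    · rw [vadd_eq_add] at hya ⊢
      rw [← add_assoc, hya]
      simp
  · refine ⟨1, one_pos, Or.inr ?_⟩
    push Not at h
    obtain ⟨M, hM⟩ := (ht.image Prod.snd).bddAbove
    have key : ∀ x ∈ AddSubmonoid.closure t, x.2 ≤ x.1 * M := by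
      intro x hx
      induction hx using AddSubmonoid.closure_induction with
      | mem x hx =>
        have h1 : x.2 ≤ M := hM ⟨x, hx, rfl⟩
        rcases Nat.eq_zero_or_pos x.1 with h0 | h0
        · have : x.2 = 0 := by
            by_contra hne
            exact h x.2 (Nat.pos_of_ne_zero hne) (by rw [← h0]; exact hx)
          rw [this]; exact Nat.zero_le _
        · calc x.2 ≤ M := h1
            _ ≤ x.1 * M := Nat.le_mul_of_pos_left M h0
      | zero => simp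
      | add x y _ _ hx hy =>
        simp only [Prod.fst_add, Prod.snd_add]
        rw [add_mul]
        exact Nat.add_le_add hx hy
    intro m
    refine ⟨a.2 + m * M + 1, ?_⟩
    intro n hn hmn
    rw [Set.mem_vadd_set] at hmn
    obtain ⟨y, hy, hya⟩ := hmn
    rw [vadd_eq_add] at hya
    have h1 := key y hy
    have h2 : a.1 + y.1 = m := congrArg Prod.fst hya
    have h3 : a.2 + y.2 = n := congrArg Prod.snd hya
    have h4 : y.1 * M ≤ m * M := Nat.mul_le_mul_right M (by omega)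
    omega

lemma fiber {s : Set (ℕ × ℕ)} (hs : IsSemilinearSet s) :
    ∃ P > 0, ∀ m, ∃ N, ∀ n ≥ N, (m, n) ∈ s → (m, n + P) ∈ s := by
  obtain ⟨S, hS, hlin, rfl⟩ := hs
  have h1 : ∀ t ∈ S, ∃ P > 0, (∀ m n, (m, n) ∈ t → (m, n + P) ∈ t) ∨
      ∀ m, ∃ N, ∀ n ≥ N, (m, n) ∉ t := fun t ht => fiber_lin (hlin t ht)
  choose! P hP hor using h1
  refine ⟨∏ t ∈ hS.toFinset, P t, ?_, ?_⟩
  · exact Finset.prod_pos (fun t ht => hP t (hS.mem_toFinset.mp ht))
  · intro m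
    have h2 : ∀ t ∈ S, ∃ N, ∀ n ≥ N, (m, n) ∈ t → (m, n + ∏ t ∈ hS.toFinset, P t) ∈ t := by
      intro t ht
      rcases hor t ht with h | h
      · refine ⟨0, ?_⟩
        intro n _ hn
        have hdiv : P t ∣ ∏ t ∈ hS.toFinset, P t :=
          Finset.dvd_prod_of_mem P (hS.mem_toFinset.mpr ht)
        obtain ⟨c, hc⟩ := hdiv
        rw [hc]
        have h3 : ∀ c : ℕ, (m, n + P t * c) ∈ t := by
          intro c
          induction c with
          | zero => simpa using hn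
          | succ c ih =>
            have := h _ _ ih
            rw [mul_add, mul_one, ← add_assoc]
            exact this
        exact h3 c
      · obtain ⟨N, hN⟩ := h m
        exact ⟨N, fun n hn hmem => absurd hmem (hN n hn)⟩
    choose! N hN using h2
    refine ⟨∑ t ∈ hS.toFinset, N t, ?_⟩
    intro n hn hmem
    obtain ⟨t, ht, hmt⟩ := hmem
    refine ⟨t, ht, hN t ht n ?_ hmt⟩
    calc N t ≤ ∑ t ∈ hS.toFinset, N t :=
          Finset.single_le_sum (fun _ _ => Nat.zero_le _) (hS.mem_toFinset.mpr ht)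
      _ ≤ n := hn



lemma binom2 (y : ℤ) (j : ℕ) : ∃ r : ℤ, (1 + y) ^ j = 1 + j * y + y ^ 2 * r := by
  induction j with
  | zero => exact ⟨0, by simp⟩
  | succ j ih =>
    obtain ⟨r, hr⟩ := ih
    refine ⟨r + j + y * r, ?_⟩
    rw [pow_succ, hr]
    push_cast
    ring

lemma solve_lin {q : ℕ} (hq : q.Prime) {s : ℤ} (hs : ¬ (q : ℤ) ∣ s) (t : ℤ) :
    ∃ j : ℕ, (q : ℤ) ∣ t + j * s := by
  have hcop : IsCoprime s (q : ℤ) := by
    rw [isCoprime_comm]
    exact (Prime.coprime_iff_not_dvd (Nat.prime_iff_prime_int.mp hq)).mpr hs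
  obtain ⟨a, b, hab⟩ := hcop
  have hq0 : (q : ℤ) ≠ 0 := by exact_mod_cast hq.ne_zero
  refine ⟨((-t * a) % q).toNat, ?_⟩
  rw [Int.toNat_of_nonneg (Int.emod_nonneg _ hq0)]
  have h1 : (-t * a) % q = (-t * a) - q * ((-t * a) / q) := by
    have := Int.emod_add_mul_ediv (-t * a) q
    linarith
  rw [h1]
  refine ⟨t * b - ((-t * a) / q) * s, ?_⟩
  linear_combination (t : ℤ) * (-hab)

lemma approx {q : ℕ} (hq : q.Prime) (hodd : Odd q) {x : ℤ} {α : ℕ} (hα : 1 ≤ α)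
    (h1 : (q : ℤ) ^ α ∣ x - 1) (h2 : ¬ (q : ℤ) ^ (α + 1) ∣ x - 1) {u : ℤ}
    (hu : (q : ℤ) ^ α ∣ u - 1) (W : ℕ) (hW : α ≤ W) : ∃ m : ℕ, (q : ℤ) ^ W ∣ x ^ m - u := by
  induction W, hW using Nat.le_induction with
  | base =>
    refine ⟨0, ?_⟩
    rw [pow_zero, ← dvd_neg, neg_sub]
    exact hu
  | succ W hW ih =>
    obtain ⟨m, t, ht⟩ := ih
    have hqx1 : (q : ℤ) ∣ x - 1 := dvd_trans (dvd_pow_self _ (by omega)) h1
    have hqx : ¬ (q : ℤ) ∣ x := by
      intro h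
      have h3 : (q : ℤ) ∣ 1 := by
        have := dvd_sub h hqx1
        simpa using this
      have h4 := Int.eq_one_of_dvd_one (by positivity) h3
      have h5 : q = 1 := by exact_mod_cast h4
      exact hq.one_lt.ne' h5
    have hmul : emultiplicity (q : ℤ) (x ^ (q ^ (W - α)) - 1) = (W : ℕ) := by
      have h3 := Int.emultiplicity_pow_sub_pow hq hodd (x := x) (y := 1) hqx1 hqx (q ^ (W - α))
      rw [one_pow] at h3
      rw [h3]
      have h4 : emultiplicity (q : ℤ) (x - 1) = (α : ℕ) := by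
        rw [emultiplicity_eq_coe]
        exact ⟨h1, h2⟩
      have h5 : emultiplicity q (q ^ (W - α)) = ((W - α : ℕ) : ℕ∞) := by
        rw [emultiplicity_eq_coe]
        refine ⟨dvd_rfl, ?_⟩
        intro h
        have := (Nat.pow_dvd_pow_iff_le_right hq.one_lt).mp h
        omega
      rw [h4, h5]
      have : W = α + (W - α) := by omega
      conv_rhs => rw [this]
      push_cast
      rfl
    rw [emultiplicity_eq_coe] at hmul
    obtain ⟨⟨s, hs⟩, hns⟩ := hmul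
    have hqs : ¬ (q : ℤ) ∣ s := by
      intro h
      apply hns
      rw [hs, pow_succ]
      exact mul_dvd_mul_left _ h
    obtain ⟨j, hj⟩ := solve_lin hq hqs t
    obtain ⟨r, hr⟩ := binom2 ((q : ℤ) ^ W * s) j
    have hxm : (q : ℤ) ∣ x ^ m - 1 := by
      have := sub_one_dvd_pow_sub_one x m
      exact dvd_trans hqx1 this
    refine ⟨m + q ^ (W - α) * j, ?_⟩
    have e1 : x ^ (q ^ (W - α)) = 1 + (q : ℤ) ^ W * s := by linarith
    rw [pow_add x, pow_mul x, e1, hr]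
    obtain ⟨c1, hc1⟩ := hj
    obtain ⟨c2, hc2⟩ := hxm
    have hWW : (q : ℤ) ^ (W + 1) ∣ ((q : ℤ) ^ W * s) ^ 2 := by
      rw [mul_pow, ← pow_mul]
      exact dvd_mul_of_dvd_left (pow_dvd_pow _ (by omega)) _
    obtain ⟨c3, hc3⟩ := hWW
    rw [hc3]
    have hu' : u = x ^ m - (q : ℤ) ^ W * t := by linarith
    rw [hu']
    refine ⟨c1 + c2 * j * s + x ^ m * c3 * r, ?_⟩
    rw [pow_succ]
    linear_combination ((q : ℤ) ^ W) * hc1 + (j : ℤ) * (q : ℤ) ^ W * s * hc2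


lemma mem_iff (a b k : ℕ) (ha : 1 ≤ a) (hk : 1 ≤ k) (ζ : ℂ) (hζ : ζ ≠ 0)
    (m n : ℕ) :
    (m, n) ∈ recSet2 (RatFunc.X ^ a) (RatFunc.X ^ b) (RatFunc.C ζ / RatFunc.X ^ k) ↔
      ∃ z : ℂ, z ^ (a ^ m + k) = ζ ∧ z ^ (b ^ n + k) = ζ := by
  obtain ⟨hnum, hden⟩ := numc ζ hζ k
  have hinf : sphereMap (RatFunc.C ζ / RatFunc.X ^ k) ∞ = ((0 : ℂ) : OnePoint ℂ) := by
    change (if (RatFunc.C ζ / RatFunc.X ^ k : RatFunc ℂ).denom.natDegree <
        (RatFunc.C ζ / RatFunc.X ^ k : RatFunc ℂ).num.natDegree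
            then (∞ : OnePoint ℂ)
            else (((RatFunc.C ζ / RatFunc.X ^ k : RatFunc ℂ).num.coeff
              (RatFunc.C ζ / RatFunc.X ^ k : RatFunc ℂ).denom.natDegree /
              (RatFunc.C ζ / RatFunc.X ^ k : RatFunc ℂ).denom.leadingCoeff : ℂ) :
                OnePoint ℂ)) = _
    rw [hnum, hden, if_neg]
    · rw [Polynomial.natDegree_X_pow, Polynomial.coeff_C_of_ne_zero (by omega)]
      simp
    · simp
  have hcoe : ∀ z : ℂ, sphereMap (RatFunc.C ζ / RatFunc.X ^ k) (z : OnePoint ℂ) =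
      if z ^ k = 0 then (∞ : OnePoint ℂ) else ((ζ / z ^ k : ℂ) : OnePoint ℂ) := by
    intro z
    change (if (RatFunc.C ζ / RatFunc.X ^ k : RatFunc ℂ).denom.eval z = 0 then (∞ : OnePoint ℂ)
            else (((RatFunc.C ζ / RatFunc.X ^ k : RatFunc ℂ).num.eval z /
              (RatFunc.C ζ / RatFunc.X ^ k : RatFunc ℂ).denom.eval z : ℂ) : OnePoint ℂ)) = _
    rw [hnum, hden]
    simp
  constructor
  · rintro ⟨x, hx1, hx2⟩
    simp only at hx1 hx2
    induction x using OnePoint.rec with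
    | infty =>
      rw [hinf, iter_pow_infty a ha] at hx1
      exact absurd hx1 (OnePoint.coe_ne_infty _)
    | coe z =>
      rw [hcoe, iter_pow_coe] at hx1 hx2
      by_cases hz : z = 0
      · rw [if_pos (by rw [hz]; exact zero_pow (by omega))] at hx1
        exact absurd hx1 (OnePoint.infty_ne_coe _)
      · have hzk : z ^ k ≠ 0 := pow_ne_zero _ hz
        rw [if_neg hzk] at hx1 hx2
        have h1 := OnePoint.coe_injective hx1
        have h2 := OnePoint.coe_injective hx2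
        refine ⟨z, ?_, ?_⟩
        · rw [pow_add, ← h1, div_mul_cancel₀ _ hzk]
        · rw [pow_add, ← h2, div_mul_cancel₀ _ hzk]
  · rintro ⟨z, h1, h2⟩
    have hz : z ≠ 0 := by
      intro h
      rw [h, zero_pow (by omega)] at h1
      exact hζ h1.symm
    have hzk : z ^ k ≠ 0 := pow_ne_zero _ hz
    refine ⟨(z : OnePoint ℂ), ?_, ?_⟩
    · simp only
      rw [hcoe, if_neg hzk, iter_pow_coe, ← h1, pow_add, mul_div_cancel_right₀ _ hzk]
    · simp only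
      rw [hcoe, if_neg hzk, iter_pow_coe, ← h2, pow_add, mul_div_cancel_right₀ _ hzk]

/-- For a base coprime to `q`, the exact power of `q` dividing `a ^ (q - 1) - 1`. -/
lemma exists_exact {q : ℕ} (hq : q.Prime) {a : ℕ} (ha : 2 ≤ a) (hqa : ¬ q ∣ a) :
    ∃ α : ℕ, 1 ≤ α ∧ (q : ℤ) ^ α ∣ ((a : ℤ) ^ (q - 1)) - 1 ∧
      ¬ (q : ℤ) ^ (α + 1) ∣ ((a : ℤ) ^ (q - 1)) - 1 := by
  have hqi : Prime (q : ℤ) := Nat.prime_iff_prime_int.mp hq
  have hne : ((a : ℤ) ^ (q - 1)) - 1 ≠ 0 := by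
    have h1 : (1 : ℤ) < (a : ℤ) ^ (q - 1) := by
      apply one_lt_pow₀ (by exact_mod_cast (by omega : 1 < a))
      have := hq.two_le
      omega
    omega
  have hfin : FiniteMultiplicity (q : ℤ) (((a : ℤ) ^ (q - 1)) - 1) := by
    rw [Int.finiteMultiplicity_iff]
    refine ⟨?_, hne⟩
    rw [Int.natAbs_natCast]
    exact hq.one_lt.ne'
  obtain ⟨c, hc, hnc⟩ := hfin.exists_eq_pow_mul_and_not_dvd
  refine ⟨multiplicity (q : ℤ) (((a : ℤ) ^ (q - 1)) - 1), ?_, ?_, ?_⟩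
  · have hdvd : (q : ℤ) ∣ ((a : ℤ) ^ (q - 1)) - 1 := by
      have hcop : Nat.Coprime a q := ((Nat.Prime.coprime_iff_not_dvd hq).mpr hqa).symm
      have h1 := Nat.ModEq.pow_totient hcop
      rw [Nat.totient_prime hq] at h1
      have h2 := (Nat.modEq_iff_dvd.mp h1.symm)
      push_cast at h2
      exact h2
    by_contra hlt
    have h0 : multiplicity (q : ℤ) (((a : ℤ) ^ (q - 1)) - 1) = 0 := by omega
    rw [h0, pow_zero, one_mul] at hc
    rw [hc] at hdvd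
    exact hnc hdvd
  · exact pow_multiplicity_dvd _ _
  · intro h
    apply hnc
    have h' : (q : ℤ) ^ (multiplicity (q : ℤ) (((a : ℤ) ^ (q - 1)) - 1)) * q ∣
        (q : ℤ) ^ (multiplicity (q : ℤ) (((a : ℤ) ^ (q - 1)) - 1)) * c := by
      rw [← hc, ← pow_succ]
      exact h
    exact (mul_dvd_mul_iff_left (pow_ne_zero _ hqi.ne_zero)).mp h'

theorem main {a b : ℕ} (ha : 2 ≤ a) (hb : 2 ≤ b) {q : ℕ} (hq : q.Prime) (hodd : Odd q)
    (hqa : ¬ q ∣ a) (hqb : ¬ q ∣ b) :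
    ∃ k : ℕ, 1 ≤ k ∧ ∀ ζ : ℂ, IsPrimitiveRoot ζ q →
      ¬ IsSemilinearSet (recSet2 (RatFunc.X ^ a) (RatFunc.X ^ b)
        (RatFunc.C ζ / RatFunc.X ^ k)) := by
  obtain ⟨α, hα1, hα2, hα3⟩ := exists_exact hq ha hqa
  obtain ⟨β, hβ1, hβ2, hβ3⟩ := exists_exact hq hb hqb
  set N := max α β with hN
  have hN1 : 1 ≤ N := le_trans hα1 (le_max_left _ _)
  have hqN : 2 ≤ q ^ N := by
    calc 2 ≤ q := hq.two_le
      _ = q ^ 1 := (pow_one q).symm
      _ ≤ q ^ N := Nat.pow_le_pow_right hq.pos hN1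
  refine ⟨q ^ N - 1, by omega, ?_⟩
  intro ζ hζ hsl
  have hζ0 : ζ ≠ 0 := hζ.ne_zero hq.ne_zero
  obtain ⟨P, hP, hfib⟩ := fiber hsl
  have hbP : 1 < b ^ P := Nat.one_lt_pow (by omega) (by omega)
  set w := N + b ^ P with hw
  have hwN : N ≤ w := by omega
  -- the target
  set u : ℤ := 1 + (q : ℤ) ^ w - (q : ℤ) ^ N with hu
  have hua : (q : ℤ) ^ α ∣ u - 1 := by
    have h1 : (q : ℤ) ^ α ∣ (q : ℤ) ^ w := pow_dvd_pow _ (le_trans (le_max_left _ _) hwN)
    have h2 : (q : ℤ) ^ α ∣ (q : ℤ) ^ N := pow_dvd_pow _ (le_max_left _ _)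
    have : u - 1 = (q : ℤ) ^ w - (q : ℤ) ^ N := by rw [hu]; ring
    rw [this]
    exact dvd_sub h1 h2
  have hub : (q : ℤ) ^ β ∣ u - 1 := by
    have h1 : (q : ℤ) ^ β ∣ (q : ℤ) ^ w := pow_dvd_pow _ (le_trans (le_max_right _ _) hwN)
    have h2 : (q : ℤ) ^ β ∣ (q : ℤ) ^ N := pow_dvd_pow _ (le_max_right _ _)
    have : u - 1 = (q : ℤ) ^ w - (q : ℤ) ^ N := by rw [hu]; ring
    rw [this]
    exact dvd_sub h1 h2
  obtain ⟨m0, hm0⟩ := approx hq hodd hα1 hα2 hα3 hua (w + 1)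
    (le_trans (le_max_left α β) (by omega : N ≤ w + 1))
  obtain ⟨n0, hn0⟩ := approx hq hodd hβ1 hβ2 hβ3 hub (w + 1)
    (le_trans (le_max_right α β) (by omega : N ≤ w + 1))
  rw [← pow_mul] at hm0 hn0
  set m := (q - 1) * m0 with hm
  set n1 := (q - 1) * n0 with hn1
  set k := q ^ N - 1 with hk
  have hkz : (k : ℤ) = (q : ℤ) ^ N - 1 := by
    rw [hk]
    push_cast [Nat.cast_sub (by omega : 1 ≤ q ^ N)]
    ring
  have hAw : (q : ℤ) ^ (w + 1) ∣ ((a ^ m + k : ℕ) : ℤ) - (q : ℤ) ^ w := by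
    push_cast
    rw [hkz]
    have : (a : ℤ) ^ m + ((q : ℤ) ^ N - 1) - (q : ℤ) ^ w = (a : ℤ) ^ m - u := by
      rw [hu]; ring
    rw [this]
    exact hm0
  have hA1 : q ^ w ∣ a ^ m + k := by
    have h1 : (q : ℤ) ^ w ∣ ((a ^ m + k : ℕ) : ℤ) := by
      have h2 : (q : ℤ) ^ w ∣ ((a ^ m + k : ℕ) : ℤ) - (q : ℤ) ^ w :=
        dvd_trans (pow_dvd_pow _ (by omega)) hAw
      have := dvd_add h2 (dvd_refl ((q : ℤ) ^ w))
      simpa using this
    exact_mod_cast h1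
  have hA2 : ¬ q ^ (w + 1) ∣ a ^ m + k := by
    intro h
    have h1 : (q : ℤ) ^ (w + 1) ∣ ((a ^ m + k : ℕ) : ℤ) := by exact_mod_cast h
    have h2 : (q : ℤ) ^ (w + 1) ∣ (q : ℤ) ^ w := by
      have := dvd_sub h1 hAw
      simpa using this
    have h3 : q ^ (w + 1) ∣ q ^ w := by exact_mod_cast h2
    have := (Nat.pow_dvd_pow_iff_le_right hq.one_lt).mp h3
    omega
  have hmem : ∀ n : ℕ, (m, n) ∈ recSet2 (RatFunc.X ^ a) (RatFunc.X ^ b)
      (RatFunc.C ζ / RatFunc.X ^ k) ↔ a ^ m + k ≡ b ^ n + k [MOD q ^ (w + 1)] := by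
    intro n
    rw [mem_iff a b k (by omega) (by omega) ζ hζ0]
    exact criterion hq hζ (Nat.add_pos_left (Nat.pow_pos (by omega)) k) hA1 hA2
  obtain ⟨N0, hN0⟩ := hfib m
  have hcop : Nat.Coprime b (q ^ (w + 1)) :=
    Nat.Coprime.pow_right _ ((Nat.Prime.coprime_iff_not_dvd hq).mpr hqb).symm
  set φ := Nat.totient (q ^ (w + 1)) with hφ
  have hφpos : 0 < φ := Nat.totient_pos.mpr (Nat.pow_pos hq.pos)
  set n := n1 + φ * N0 with hn
  have hnN : n ≥ N0 := by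
    have : N0 ≤ φ * N0 := Nat.le_mul_of_pos_left _ hφpos
    omega
  have hbn : b ^ n ≡ b ^ n1 [MOD q ^ (w + 1)] := by
    have e0 : b ^ n = b ^ n1 * (b ^ φ) ^ N0 := by rw [hn, pow_add b, pow_mul b φ]
    rw [e0]
    have h1 : (b ^ φ) ^ N0 ≡ 1 ^ N0 [MOD q ^ (w + 1)] :=
      (Nat.ModEq.pow_totient hcop).pow N0
    have h2 := Nat.ModEq.mul_left (b ^ n1) h1
    rw [one_pow, mul_one] at h2
    exact h2
  have hn1mod : a ^ m ≡ b ^ n1 [MOD q ^ (w + 1)] := by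
    rw [Nat.modEq_iff_dvd]
    push_cast
    have := dvd_sub hn0 hm0
    have e : (b : ℤ) ^ n1 - u - ((a : ℤ) ^ m - u) = (b : ℤ) ^ n1 - (a : ℤ) ^ m := by ring
    rw [e] at this
    exact this
  have h1 : (m, n) ∈ recSet2 (RatFunc.X ^ a) (RatFunc.X ^ b)
      (RatFunc.C ζ / RatFunc.X ^ k) := by
    rw [hmem]
    exact Nat.ModEq.add_right k (hn1mod.trans hbn.symm)
  have h2 := hN0 n hnN h1
  rw [hmem] at h1 h2
  have h3 : b ^ n ≡ b ^ (n + P) [MOD q ^ (w + 1)] :=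
    Nat.ModEq.add_right_cancel' k (h1.symm.trans h2)
  have h4 : b ^ n * 1 ≡ b ^ n * b ^ P [MOD q ^ (w + 1)] := by
    rw [mul_one, ← pow_add]
    exact h3
  have h5 : 1 ≡ b ^ P [MOD q ^ (w + 1)] :=
    Nat.ModEq.cancel_left_of_coprime (Nat.Coprime.pow_right n hcop.symm) h4
  have h6 : q ^ (w + 1) ∣ b ^ P - 1 := (Nat.modEq_iff_dvd' (by omega)).mp h5
  have h7 := Nat.le_of_dvd (by omega) h6
  have h8 : w + 1 < q ^ (w + 1) := Nat.lt_pow_self hq.one_lt
  omega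

end Pool.Agent.Work.MP_2fa0cb_nt
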